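import Pool.Agent.Helper68.HM.Lp1

set_option autoImplicit false

/-! Nonnegative Taylor coefficients. -/

open Polynomial Complex Filter Topology Metric

namespace Pool.Agent.Helper68.HM

lemma mul_coeff_nonneg {p q : ℝ[X]} (hp : ∀ n, 0 ≤ p.coeff n) (hq : ∀ n, 0 ≤ q.coeff n) (n : ℕ) :
    0 ≤ (p * q).coeff n := by
  rw [coeff_mul]
  exact Finset.sum_nonneg fun x _ => mul_nonneg (hp _) (hq _)

/-- real polynomials with zeros in the left half plane, positive at one, have nonnegative coefficients -/
lemma coeff_nonneg_aux (d : ℕ) : ∀ q : ℝ[X], q.natDegree ≤ d → (∀ z : ℂ, aeval z q = 0 → z.re ≤ 0) →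
    0 < q.eval 1 → ∀ n, 0 ≤ q.coeff n := by
  induction d with
  | zero =>
    intro q hd _ h1 n
    rw [eq_C_of_natDegree_le_zero hd] at h1 ⊢
    rw [eval_C] at h1
    rw [coeff_C]
    split_ifs
    · exact h1.le
    · exact le_rfl
  | succ d ih =>
    intro q hd hroots h1 n
    by_cases hdeg : q.natDegree = 0
    · exact ih q (by omega) hroots h1 n
    have hq0 : q ≠ 0 := by rintro rfl; simp at h1
    have hdeg' : q.degree ≠ 0 := by
      intro h
      exact hdeg (natDegree_eq_zero_iff_degree_le_zero.2 h.le)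
    obtain ⟨z, hz⟩ := IsAlgClosed.exists_aeval_eq_zero ℂ q hdeg'
    have hzre := hroots z hz
    by_cases him : z.im = 0
    · -- real root
      have hzr : z = ((z.re : ℝ) : ℂ) := by
        apply Complex.ext
        · simp
        · simp [him]
      have hr : q.IsRoot z.re := by
        rw [IsRoot.def]
        rw [hzr] at hz
        have h2 : (aeval ((z.re : ℝ) : ℂ)) q = ((q.eval z.re : ℝ) : ℂ) := by
          have h3 := aeval_algebraMap_apply ℂ z.re q
          rw [Complex.coe_algebraMap, coe_aeval_eq_eval] at h3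
          exact h3
        rw [h2] at hz
        exact_mod_cast hz
      obtain ⟨p, rfl⟩ := dvd_iff_isRoot.2 hr
      have hp0 : p ≠ 0 := by rintro rfl; simp at hq0
      rw [eval_mul, eval_sub, eval_X, eval_C] at h1
      have hpos : 0 < p.eval 1 := pos_of_mul_pos_right h1 (by linarith)
      have hdp : p.natDegree ≤ d := by
        rw [natDegree_mul (X_sub_C_ne_zero _) hp0, natDegree_X_sub_C] at hd
        omega
      have hpc := ih p hdp (fun w hw => hroots w (by rw [map_mul, hw, mul_zero])) hpos
      refine mul_coeff_nonneg ?_ hpc n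
      intro k
      rw [coeff_sub, coeff_X, coeff_C]
      split_ifs <;> linarith
    · -- a pair of conjugate roots
      obtain ⟨p, rfl⟩ := q.quadratic_dvd_of_aeval_eq_zero_im_ne_zero hz him
      have hquad0 : (X ^ 2 - C (2 * z.re) * X + C (‖z‖ ^ 2) : ℝ[X]) ≠ 0 := by
        intro h
        rw [h, zero_mul] at hq0
        exact hq0 rfl
      have hp0 : p ≠ 0 := by rintro rfl; simp at hq0
      have hquad : (X ^ 2 - C (2 * z.re) * X + C (‖z‖ ^ 2) : ℝ[X]) =
          C 1 * X ^ 2 + C (-(2 * z.re)) * X + C (‖z‖ ^ 2) := by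
        simp only [map_neg, C_1]
        ring
      have hdq : (X ^ 2 - C (2 * z.re) * X + C (‖z‖ ^ 2) : ℝ[X]).natDegree = 2 := by
        rw [hquad]
        exact natDegree_quadratic one_ne_zero
      rw [eval_mul] at h1
      have hq1 : 0 ≤ (X ^ 2 - C (2 * z.re) * X + C (‖z‖ ^ 2) : ℝ[X]).eval 1 := by
        simp only [eval_add, eval_sub, eval_mul, eval_pow, eval_X, eval_C]
        nlinarith [sq_nonneg ‖z‖]
      have hpos : 0 < p.eval 1 := pos_of_mul_pos_right h1 hq1
      have hdp : p.natDegree ≤ d := by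
        rw [natDegree_mul hquad0 hp0, hdq] at hd
        omega
      have hpc := ih p hdp (fun w hw => hroots w (by rw [map_mul, hw, mul_zero])) hpos
      refine mul_coeff_nonneg ?_ hpc n
      intro k
      rw [hquad]
      simp only [coeff_add, coeff_C_mul, coeff_X_pow, coeff_X, coeff_C]
      split_ifs <;> nlinarith [sq_nonneg ‖z‖]

lemma sym_coeff {p : ℂ[X]} (h : ∀ z, p.eval (starRingEnd ℂ z) = starRingEnd ℂ (p.eval z)) :
    p.map (starRingEnd ℂ) = p := by
  apply Polynomial.funext
  intro z
  have h1 := Polynomial.eval₂_hom (p := p) (starRingEnd ℂ) (starRingEnd ℂ z)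
  rw [Complex.conj_conj] at h1
  rw [Polynomial.eval_map, h1, ← h, Complex.conj_conj]

lemma GoodH.coeff {p : ℂ[X]} (h : GoodH p) (n : ℕ) : 0 ≤ (p.coeff n).re ∧ (p.coeff n).im = 0 := by
  have h1 := sym_coeff h.sym
  have him : ∀ n, (p.coeff n).im = 0 := by
    intro n
    have h2 := congrArg (fun q => q.coeff n) h1
    simp only [coeff_map] at h2
    exact Complex.conj_eq_iff_im.1 h2
  refine ⟨?_, him n⟩
  have h3 : p ∈ Polynomial.lifts (algebraMap ℝ ℂ) := by
    rw [Polynomial.lifts_iff_coeff_lifts]
    intro k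
    refine ⟨(p.coeff k).re, ?_⟩
    apply Complex.ext
    · simp
    · simp [him k]
  obtain ⟨q, rfl⟩ := (Polynomial.mem_lifts _).1 h3
  have hc := coeff_nonneg_aux q.natDegree q le_rfl (fun z hz => h.roots z (by
    rw [Polynomial.eval_map_algebraMap]
    exact hz)) (by
      have := h.one
      rw [Polynomial.eval_one_map] at this
      simpa using this) n
  rw [coeff_map]
  simpa using hc

/-- nonnegative derivatives at the origin -/
theorem taylor_nonneg {F : ℂ → ℂ} (hF : Differentiable ℂ F)
    (hsym : ∀ z, F (starRingEnd ℂ z) = starRingEnd ℂ (F z)) (h1 : 0 < (F 1).re)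
    (hroots : ∀ z, F z = 0 → z.re ≤ 0) {C : ℝ} (hC : 0 ≤ C)
    (hgr : ∀ z, ‖F z‖ ≤ Real.exp (C * (1 + ‖z‖) ^ (3 / 5 : ℝ))) (n : ℕ) :
    0 ≤ (iteratedDeriv n F 0).re ∧ (iteratedDeriv n F 0).im = 0 := by
  obtain ⟨P, hP, hconv⟩ := approx hF hsym h1 hroots hC hgr
  have hiter : ∀ j : ℕ, TendstoLocallyUniformlyOn (fun N z => (derivative^[j] (P N)).eval z)
      (iteratedDeriv j F) atTop Set.univ := by
    intro j
    induction j with
    | zero => simpa using hconv
    | succ j ih =>
      have h1 := ih.deriv (Eventually.of_forall fun N =>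
        ((derivative^[j] (P N)).differentiable.differentiableOn)) isOpen_univ
      rw [iteratedDeriv_succ]
      refine h1.congr fun N z _ => ?_
      show deriv (fun z => (derivative^[j] (P N)).eval z) z = _
      rw [Function.iterate_succ_apply']
      exact Polynomial.deriv _
  have hpt : Tendsto (fun N => (derivative^[n] (P N)).eval 0) atTop (𝓝 (iteratedDeriv n F 0)) :=
    (hiter n).tendsto_at (Set.mem_univ 0)
  have hval : ∀ N, (derivative^[n] (P N)).eval 0 = (n.factorial : ℂ) * (P N).coeff n := by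
    intro N
    rw [← coeff_zero_eq_eval_zero, coeff_iterate_derivative, zero_add, Nat.descFactorial_self, nsmul_eq_mul]
  simp_rw [hval] at hpt
  have hre : Tendsto (fun N => ((n.factorial : ℂ) * (P N).coeff n).re) atTop
      (𝓝 (iteratedDeriv n F 0).re) := (Complex.continuous_re.tendsto _).comp hpt
  have him : Tendsto (fun N => ((n.factorial : ℂ) * (P N).coeff n).im) atTop
      (𝓝 (iteratedDeriv n F 0).im) := (Complex.continuous_im.tendsto _).comp hpt
  have e1 : ∀ N, ((n.factorial : ℂ) * (P N).coeff n).re = (n.factorial : ℝ) * ((P N).coeff n).re := by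
    intro N
    rw [← Complex.ofReal_natCast, Complex.re_ofReal_mul]
  have e2 : ∀ N, ((n.factorial : ℂ) * (P N).coeff n).im = 0 := by
    intro N
    rw [← Complex.ofReal_natCast, Complex.im_ofReal_mul, ((hP N).coeff n).2, mul_zero]
  constructor
  · refine ge_of_tendsto' hre fun N => ?_
    rw [e1]
    exact mul_nonneg (Nat.cast_nonneg _) ((hP N).coeff n).1
  · simp_rw [e2] at him
    exact (tendsto_nhds_unique him tendsto_const_nhds)

end Pool.Agent.Helper68.HM
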