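import Pool.Agent.Helper68.HM.Lp2

set_option autoImplicit false
set_option maxHeartbeats 1000000

/-! Even entire functions as functions of the square (after helper75). -/

open Complex Filter Topology Metric

namespace Pool.Agent.Helper68.HM

open Pool.Agent.Helper75.Jen (cpow_half_sq)

/-- `SQ f (w^2) = f w` for even `f` -/
noncomputable def SQ (f : ℂ → ℂ) (z : ℂ) : ℂ := f (z ^ (1 / 2 : ℂ))

lemma SQ_eq {f : ℂ → ℂ} (he : ∀ w, f (-w) = f w) {z w : ℂ} (h : w ^ 2 = z) : SQ f z = f w := by
  unfold SQ
  have h1 : (z ^ (1 / 2 : ℂ)) ^ 2 = w ^ 2 := by rw [cpow_half_sq, h]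
  rcases sq_eq_sq_iff_eq_or_eq_neg.1 h1 with h2 | h2
  · rw [h2]
  · rw [h2, he]

lemma SQ_sq {f : ℂ → ℂ} (he : ∀ w, f (-w) = f w) (w : ℂ) : SQ f (w ^ 2) = f w := SQ_eq he rfl

lemma SQ_diff {f : ℂ → ℂ} (hf : Differentiable ℂ f) (he : ∀ w, f (-w) = f w) : Differentiable ℂ (SQ f) := by
  have hne : ∀ z : ℂ, z ≠ 0 → DifferentiableAt ℂ (SQ f) z := by
    intro z hz
    by_cases hs : z ∈ slitPlane
    · have h1 : DifferentiableAt ℂ (fun z : ℂ => z ^ (1 / 2 : ℂ)) z :=
        (differentiableAt_id).cpow_const hs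
      exact (hf _).comp z h1
    · have hs' : -z ∈ slitPlane := by
        rw [Complex.mem_slitPlane_iff] at hs ⊢
        push Not at hs
        obtain ⟨h1, h2⟩ := hs
        left
        rw [neg_re]
        rcases lt_or_eq_of_le h1 with h3 | h3
        · linarith
        · exfalso
          apply hz
          apply Complex.ext
          · rw [h3]; rfl
          · rw [h2]; rfl
      have h1 : DifferentiableAt ℂ (fun z : ℂ => I * (-z) ^ (1 / 2 : ℂ)) z := by
        have : DifferentiableAt ℂ (fun z : ℂ => (-z) ^ (1 / 2 : ℂ)) z :=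
          (differentiableAt_id.neg).cpow_const hs'
        exact this.const_mul I
      have h2 : SQ f = fun z => f (I * (-z) ^ (1 / 2 : ℂ)) := by
        funext x
        refine SQ_eq he ?_
        rw [mul_pow, I_sq, cpow_half_sq]
        ring
      rw [h2]
      exact (hf _).comp z h1
  intro z
  by_cases hz : z = 0
  · subst hz
    refine (Complex.analyticAt_of_differentiable_on_punctured_nhds_of_continuousAt ?_ ?_).differentiableAt
    · filter_upwards [self_mem_nhdsWithin] with x hx
      exact hne x hx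
    · -- continuity at zero
      have h0 : SQ f 0 = f 0 := SQ_eq he (by norm_num)
      rw [Metric.continuousAt_iff]
      intro ε hε
      obtain ⟨δ, hδ, hd⟩ := Metric.continuousAt_iff.1 (hf.continuous.continuousAt (x := (0 : ℂ))) ε hε
      refine ⟨δ ^ 2, by positivity, ?_⟩
      intro x hx
      rw [h0]
      unfold SQ
      apply hd
      rw [dist_zero_right] at hx ⊢
      have h1 : ‖x ^ (1 / 2 : ℂ)‖ ^ 2 = ‖x‖ := by rw [← norm_pow, cpow_half_sq]
      rw [← h1] at hx
      exact lt_of_pow_lt_pow_left₀ 2 hδ.le hx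
  · exact hne z hz

/-- Taylor coefficients -/
lemma SQ_taylor {f : ℂ → ℂ} (hf : Differentiable ℂ f) (he : ∀ w, f (-w) = f w) (k : ℕ) : iteratedDeriv k (SQ f) 0 =
    (k.factorial : ℂ) * (iteratedDeriv (2 * k) f 0 / ((2 * k).factorial : ℂ)) := by
  classical
  set b : ℕ → ℂ := fun j => if Even j then iteratedDeriv (j / 2) (SQ f) 0 / ((j / 2).factorial : ℂ) else 0
    with hb
  have h1 : HasFPowerSeriesAt f
      (FormalMultilinearSeries.ofScalars ℂ (fun n ↦ iteratedDeriv n f 0 / n.factorial)) 0 :=
    AnalyticAt.hasFPowerSeriesAt (hf.analyticAt 0)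
  have h2 : HasFPowerSeriesAt f (FormalMultilinearSeries.ofScalars ℂ b) 0 := by
    rw [hasFPowerSeriesAt_iff]
    refine Eventually.of_forall fun z => ?_
    rw [zero_add, ← SQ_sq he]
    have h3 := Complex.hasSum_taylorSeries_of_entire (SQ_diff hf he) 0 (z ^ 2)
    simp only [smul_eq_mul, sub_zero] at h3
    have hinj : Function.Injective (fun n : ℕ => 2 * n) := fun a b h => by
      simpa using h
    rw [← hinj.hasSum_iff (f := fun n => z ^ n • (FormalMultilinearSeries.ofScalars ℂ b).coeff n)]
    · have e : ((fun n => z ^ n • (FormalMultilinearSeries.ofScalars ℂ b).coeff n) ∘ fun n => 2 * n) =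
          fun n : ℕ => (n.factorial : ℂ)⁻¹ * ((z ^ 2) ^ n * iteratedDeriv n (SQ f) 0) := by
        funext n
        simp only [Function.comp_apply, FormalMultilinearSeries.coeff_ofScalars, hb, smul_eq_mul]
        rw [if_pos (even_two_mul n), show 2 * n / 2 = n by omega, ← pow_mul]
        ring
      rw [e]
      exact h3
    · intro x hx
      have hodd : ¬ Even x := by
        intro he
        obtain ⟨r, hr⟩ := he
        exact hx ⟨r, by simp only; omega⟩
      rw [FormalMultilinearSeries.coeff_ofScalars, hb]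
      simp [hodd]
  have h4 := h1.eq_formalMultilinearSeries h2
  have h5 := FormalMultilinearSeries.ofScalars_series_injective ℂ ℂ h4
  have h6 := congrFun h5 (2 * k)
  simp only [hb] at h6
  rw [if_pos (even_two_mul k), show 2 * k / 2 = k by omega] at h6
  have hk : (k.factorial : ℂ) ≠ 0 := by exact_mod_cast k.factorial_ne_zero
  rw [h6]
  field_simp

end Pool.Agent.Helper68.HM
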